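import Pool.Agent.H741.RS.Stm

/-!
Project RS of helper741 (MP_9c6456_an), subtask LOW1: the lower bound by `Sep`.
-/

set_option autoImplicit false
open scoped ComplexConjugate

namespace Pool.Agent.H147.RS

open Pool.Agent.H741.RS

theorem hp_map {n : ℕ} (U : V n ≃ₗᵢ[ℂ] V n) (z w : V n) : hp (U z) (U w) = hp z w := by
  unfold hp
  exact U.inner_map_map w z

/-- the linear map `(a, x) ↦ (a, U x)` -/
noncomputable def lft {n : ℕ} (U : V n ≃ₗᵢ[ℂ] V n) : (ℂ × V n) →ₗ[ℂ] (ℂ × V n) :=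
  LinearMap.prodMap LinearMap.id (U.toLinearEquiv : V n →ₗ[ℂ] V n)

theorem lft_apply {n : ℕ} (U : V n ≃ₗᵢ[ℂ] V n) (X : ℂ × V n) : lft U X = (X.1, U X.2) := rfl

theorem presJ_lft {n : ℕ} (U : V n ≃ₗᵢ[ℂ] V n) : PresJ (lft U) := by
  intro X Y
  simp only [lft_apply, J, hp_map]

theorem frac_lft {n : ℕ} (U : V n ≃ₗᵢ[ℂ] V n) (z : V n) : frac (lft U) z = U z := by
  simp only [frac, lft_apply, inv_one, one_smul]

theorem eq_of_ball {n : ℕ} (U U' : V n ≃ₗᵢ[ℂ] V n) (h : ∀ z ∈ Bn n, U z = U' z) : U = U' := by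
  refine LinearIsometryEquiv.ext fun z => ?_
  have hpos : (0 : ℝ) < ‖z‖ + 1 := by positivity
  have ht : (((‖z‖ + 1 : ℝ) : ℂ))⁻¹ ≠ 0 := inv_ne_zero (by exact_mod_cast hpos.ne')
  have hball : (((‖z‖ + 1 : ℝ) : ℂ))⁻¹ • z ∈ Bn n := by
    show ‖(((‖z‖ + 1 : ℝ) : ℂ))⁻¹ • z‖ < 1
    rw [norm_smul, norm_inv, Complex.norm_real, Real.norm_eq_abs, abs_of_pos hpos,
      inv_mul_lt_iff₀ hpos]
    linarith
  have h1 := h _ hball
  rw [map_smul, map_smul] at h1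
  exact smul_right_injective _ ht h1

theorem t_LOW1 (h1 : S_DIVI) (h2 : S_INVF) (h3 : S_PID) (h4 : S_KCL) (h5 : S_KINV) (h6 : S_TOG) :
    S_LOW1 := by
  intro n N f G hG hn hSG U hU
  obtain ⟨c, hc⟩ := hU
  obtain ⟨_, u, hu, _, hJ⟩ := h1 n N f hn
  have hinv : ∀ g ∈ G, Inv u g := by
    intro g hg
    have hγ : InGamma f (fun z => g z) := (hSG _).2 ⟨g, hg, fun z _ => rfl⟩
    have hpow : g ^ (Fintype.card G) = 1 :=
      congrArg Subtype.val (pow_card_eq_one (x := (⟨g, hg⟩ : G)))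
    have hJ' := h2 n N f g (Fintype.card G) Fintype.card_pos hpow hγ
    refine h3 n (f.deg - 1) (fun z w => u (g z) (g w)) u
      ((h4 n (f.deg - 1) (f.deg - 1)).2.1 u g hu) hu (Or.inr fun z w => ?_)
    have e1 := hJ (g z) (g w)
    rw [hp_map, hJ' z w, hJ z w] at e1
    exact e1.symm
  have hUi : Inv u U := h5 n (f.deg - 1) G hG U c u hc hu hinv
  have hA : InGamma f (frac (lft U)) := by
    refine h6 n N f 0 (lft U) (presJ_lft U) fun z _ w _ => ?_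
    rw [frac_lft, frac_lft, hJ, hJ, hp_map, hUi z w]
    simp
  obtain ⟨U', hU', hz⟩ := (hSG _).1 hA
  have : U = U' := eq_of_ball U U' fun z hzb => by
    rw [← hz z hzb, frac_lft]
  rw [this]
  exact hU'

end Pool.Agent.H147.RS
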